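import Pool.Agent.NPC.Defs

/-!
# Edge-coloured clustering with a global budget (GlobalECC): definitions
-/

set_option autoImplicit false

namespace Pool.Agent.W5h82.ECC

/-- An instance of GlobalECC: the list of the nodes and the list of the colours, the list of the
hyperedges (each given by the list of its nodes and its colour), and the budget. -/
abbrev Inst : Type := (List ℕ × List ℕ) × (List (List ℕ × ℕ) × ℕ)

/-- the nodes -/
def Inst.nodes (I : Inst) : List ℕ := I.1.1

/-- the colours -/
def Inst.colours (I : Inst) : List ℕ := I.1.2

/-- the hyperedges with their colours -/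
def Inst.edges (I : Inst) : List (List ℕ × ℕ) := I.2.1

/-- the budget -/
def Inst.budget (I : Inst) : ℕ := I.2.2

/-- Well-formed instances: the nodes are listed without repetition, there is at least one colour,
and every hyperedge is a nonempty set of nodes and has one of the colours. -/
def WellFormed (I : Inst) : Prop :=
  I.nodes.Nodup ∧ I.colours ≠ [] ∧
    ∀ e ∈ I.edges, e.1 ≠ [] ∧ (∀ v ∈ e.1, v ∈ I.nodes) ∧ e.2 ∈ I.colours

/-- `S` assigns to every node a nonempty set of colours. -/
def IsAssignment (I : Inst) (S : ℕ → Finset ℕ) : Prop :=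
  ∀ v ∈ I.nodes, (S v).Nonempty ∧ ∀ c ∈ S v, c ∈ I.colours

/-- The cost of the assignment `S`: the sum of `|S v| - 1` over all nodes `v`. -/
def cost (I : Inst) (S : ℕ → Finset ℕ) : ℕ := ∑ v ∈ I.nodes.toFinset, ((S v).card - 1)

/-- The hyperedge `e` is satisfied: all its nodes have its colour. -/
def Satisfied (S : ℕ → Finset ℕ) (e : List ℕ × ℕ) : Prop := ∀ v ∈ e.1, e.2 ∈ S v

open Classical in
/-- The number of mistakes: the number of the hyperedges which are not satisfied. -/
noncomputable def mistakes (I : Inst) (S : ℕ → Finset ℕ) : ℕ :=
  (I.edges.filter fun e => decide (¬ Satisfied S e)).length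

end Pool.Agent.W5h82.ECC
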