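import Pool.Agent.W5h82.ECC.LR
import Pool.Agent.W5h82.ECC.Defs

/-!
# A bicriteria approximation algorithm for GlobalECC
-/

set_option autoImplicit false

namespace Pool.Agent.W5h82.ECC

open Pool.Agent.NPC Finset

/-- the elements: hyperedges `(false, i, 0)` and payments `(true, v, c)` -/
abbrev El : Type := Bool × ℕ × ℕ

/-- the weights -/
def wt (k : ℕ × ℕ) (x : El) : ℕ := bif x.1 then k.2 else k.1

/-- the quadruples of two hyperedges of different colours and the two payments at a common node -/
def quads (I : Inst) : List (Quad El) :=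
  I.edges.zipIdx.flatMap fun p => I.edges.zipIdx.flatMap fun q =>
    if p.1.2 = q.1.2 then [] else
      (p.1.1.filter fun v => decide (v ∈ q.1.1)).map fun v =>
        (((false, p.2, 0), (false, q.2, 0)), ((true, v, p.1.2), (true, v, q.1.2)))

/-- the scaling factor -/
def scale (I : Inst) : ℕ := 4 * (I.edges.length + I.budget) + 5

/-- the two weights for the guess `D` -/
def wts (p q : ℕ) (I : Inst) (D : ℕ) : ℕ × ℕ :=
  (p * I.budget * scale I + 1, q * D * scale I + 1)

/-- is `x` chosen? -/
def chosen (k : ℕ × ℕ) (h : List (Quad El × ℕ)) (x : El) : Bool := decide (wt k x ≤ load h x)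

/-- the payments at `v` -/
def paid (I : Inst) (k : ℕ × ℕ) (h : List (Quad El × ℕ)) (v : ℕ) : List ℕ :=
  I.colours.dedup.filter fun c => chosen k h (true, v, c)

/-- the free colours that are needed at `v` -/
def free (I : Inst) (k : ℕ × ℕ) (h : List (Quad El × ℕ)) (v : ℕ) : List ℕ :=
  (I.edges.zipIdx.filter fun p => (!(chosen k h (false, p.2, 0)) && decide (v ∈ p.1.1)) &&
    !(chosen k h (true, v, p.1.2))).map fun p => p.1.2

/-- the free colour of `v` -/
def base (I : Inst) (k : ℕ × ℕ) (h : List (Quad El × ℕ)) (v : ℕ) : ℕ :=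
  ((free I k h v).head?).getD (I.colours.getD 0 0)

/-- the colours of `v` -/
def sol (I : Inst) (k : ℕ × ℕ) (h : List (Quad El × ℕ)) (v : ℕ) : List ℕ :=
  base I k h v :: (paid I k h v).filter fun c => !decide (c = base I k h v)

/-- the number of additional colours -/
def costL (I : Inst) (k : ℕ × ℕ) (h : List (Quad El × ℕ)) : ℕ :=
  (I.nodes.map fun v => (sol I k h v).length - 1).sum

/-- the number of mistakes -/
def mistL (I : Inst) (k : ℕ × ℕ) (h : List (Quad El × ℕ)) : ℕ :=
  (I.edges.filter fun e => !(e.1.all fun v => decide (e.2 ∈ sol I k h v))).length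

/-- the run for the guess `D` -/
def hist (p q : ℕ) (I : Inst) (D : ℕ) : List (Quad El × ℕ) := run (wt (wts p q I D)) (quads I)

/-- is the guess `D` good? -/
def good (p q : ℕ) (I : Inst) (D : ℕ) : Bool :=
  decide (q * costL I (wts p q I D) (hist p q I D) ≤ 4 * (p + q) * I.budget) &&
    decide (p * mistL I (wts p q I D) (hist p q I D) ≤ 4 * (p + q) * D)

/-- the first good guess -/
def guess (p q : ℕ) (I : Inst) : ℕ :=
  (((List.range (I.edges.length + 1)).filter fun D => good p q I D).head?).getD 0

/-- the algorithm -/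
def alg (p q : ℕ) (I : Inst) : List (ℕ × List ℕ) :=
  I.nodes.map fun v => (v, sol I (wts p q I (guess p q I)) (hist p q I (guess p q I)) v)

/-! ### Correctness -/

section correct

variable {I : Inst} {k : ℕ × ℕ} {l : List (Quad El)}

theorem mem_quads {i j : ℕ} {e f : List ℕ × ℕ} {v : ℕ} (he : I.edges[i]? = some e)
    (hf : I.edges[j]? = some f) (hc : e.2 ≠ f.2) (hv : v ∈ e.1) (hv' : v ∈ f.1) :
    (((false, i, 0), (false, j, 0)), ((true, v, e.2), (true, v, f.2))) ∈ quads I := by
  unfold quads
  rw [List.mem_flatMap]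
  refine ⟨(e, i), List.mk_mem_zipIdx_iff_getElem?.2 he, ?_⟩
  rw [List.mem_flatMap]
  refine ⟨(f, j), List.mk_mem_zipIdx_iff_getElem?.2 hf, ?_⟩
  rw [if_neg hc, List.mem_map]
  exact ⟨v, List.mem_filter.2 ⟨hv, by simpa using hv'⟩, rfl⟩

theorem quads_spec {s : Quad El} (hs : s ∈ quads I) : ∃ i j e f v, I.edges[i]? = some e ∧
    I.edges[j]? = some f ∧ e.2 ≠ f.2 ∧ v ∈ e.1 ∧ v ∈ f.1 ∧
    s = (((false, i, 0), (false, j, 0)), ((true, v, e.2), (true, v, f.2))) := by
  unfold quads at hs
  rw [List.mem_flatMap] at hs
  obtain ⟨⟨e, i⟩, he, hs⟩ := hs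
  rw [List.mem_flatMap] at hs
  obtain ⟨⟨f, j⟩, hf, hs⟩ := hs
  split_ifs at hs with hc
  · simp at hs
  · rw [List.mem_map] at hs
    obtain ⟨v, hv, rfl⟩ := hs
    rw [List.mem_filter] at hv
    exact ⟨i, j, e, f, v, List.mk_mem_zipIdx_iff_getElem?.1 he,
      List.mk_mem_zipIdx_iff_getElem?.1 hf, hc, hv.1, by simpa using hv.2, rfl⟩

variable (I k) in
/-- the solution as an assignment -/
def S (h : List (Quad El × ℕ)) (v : ℕ) : Finset ℕ := (sol I k h v).toFinset

theorem sol_nodup (h : List (Quad El × ℕ)) (v : ℕ) : (sol I k h v).Nodup := by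
  unfold sol
  rw [List.nodup_cons]
  constructor
  · rw [List.mem_filter]
    simp
  · exact List.Nodup.filter _ (List.Nodup.filter _ (List.nodup_dedup _))

theorem S_card (h : List (Quad El × ℕ)) (v : ℕ) : (S I k h v).card = (sol I k h v).length :=
  List.toFinset_card_of_nodup (sol_nodup h v)

theorem mem_free {h : List (Quad El × ℕ)} {v c : ℕ} : c ∈ free I k h v ↔
    ∃ i e, I.edges[i]? = some e ∧ chosen k h (false, i, 0) = false ∧ v ∈ e.1 ∧
      chosen k h (true, v, e.2) = false ∧ e.2 = c := by
  unfold free
  simp only [List.mem_map, List.mem_filter, Bool.and_eq_true, Bool.not_eq_true', decide_eq_true_eq]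
  constructor
  · rintro ⟨⟨e, i⟩, ⟨h1, h2⟩, rfl⟩
    exact ⟨i, e, List.mk_mem_zipIdx_iff_getElem?.1 h1, h2.1.1, h2.1.2, h2.2, rfl⟩
  · rintro ⟨i, e, h1, h2, h3, h4, rfl⟩
    exact ⟨(e, i), ⟨List.mk_mem_zipIdx_iff_getElem?.2 h1, ⟨⟨h2, h3⟩, h4⟩⟩, rfl⟩

/-- at most one free colour is needed at each node -/
theorem free_unique {v c c' : ℕ} (hc : c ∈ free I k (run (wt k) (quads I)) v)
    (hc' : c' ∈ free I k (run (wt k) (quads I)) v) : c = c' := by
  obtain ⟨i, e, h1, h2, h3, h4, rfl⟩ := mem_free.1 hc
  obtain ⟨j, f, k1, k2, k3, k4, rfl⟩ := mem_free.1 hc'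
  by_contra hne
  obtain ⟨x, hx, hx'⟩ := run_hit (wt k) (quads I) _ (mem_quads h1 k1 hne h3 k3)
  have h5 : chosen k (run (wt k) (quads I)) x = true := by
    unfold chosen
    simpa using hx'
  rcases (inQ_iff _ _).1 hx with rfl | rfl | rfl | rfl
  · rw [h5] at h2; exact Bool.noConfusion h2
  · rw [h5] at k2; exact Bool.noConfusion k2
  · rw [h5] at h4; exact Bool.noConfusion h4
  · rw [h5] at k4; exact Bool.noConfusion k4

theorem base_eq {v c : ℕ} (hc : c ∈ free I k (run (wt k) (quads I)) v) :
    base I k (run (wt k) (quads I)) v = c := by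
  unfold base
  cases hl : free I k (run (wt k) (quads I)) v with
  | nil => rw [hl] at hc; simp at hc
  | cons a t =>
    have h1 : a ∈ free I k (run (wt k) (quads I)) v := by rw [hl]; simp
    simpa using free_unique h1 hc

theorem isAssignment (hI : WellFormed I) (h : List (Quad El × ℕ)) :
    IsAssignment I (S I k h) := by
  intro v _
  have hb : base I k h v ∈ I.colours := by
    unfold base
    cases hl : free I k h v with
    | nil =>
      simp only [List.head?_nil, Option.getD_none]
      cases hc : I.colours with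
      | nil => exact absurd hc hI.2.1
      | cons a t => simp
    | cons a t =>
      have h1 : a ∈ free I k h v := by rw [hl]; simp
      obtain ⟨i, e, h2, _, _, _, rfl⟩ := mem_free.1 h1
      simpa using (hI.2.2 e (List.mem_of_getElem? h2)).2.2
  refine ⟨⟨base I k h v, by simp [S, sol]⟩, fun c hc => ?_⟩
  unfold S sol at hc
  rw [List.mem_toFinset, List.mem_cons] at hc
  rcases hc with rfl | hc
  · exact hb
  · rw [List.mem_filter] at hc
    have := hc.1
    unfold paid at this
    rw [List.mem_filter, List.mem_dedup] at this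
    exact this.1

/-- a hyperedge that is not chosen is satisfied -/
theorem satisfied_of_not_chosen (hI : WellFormed I) {i : ℕ} {e : List ℕ × ℕ}
    (he : I.edges[i]? = some e)
    (hi : chosen k (run (wt k) (quads I)) (false, i, 0) = false) :
    Satisfied (S I k (run (wt k) (quads I))) e := by
  intro v hv
  unfold S sol
  rw [List.mem_toFinset, List.mem_cons, List.mem_filter]
  by_cases hp : chosen k (run (wt k) (quads I)) (true, v, e.2) = true
  · by_cases hb : e.2 = base I k (run (wt k) (quads I)) v
    · exact Or.inl hb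
    · refine Or.inr ⟨?_, by simpa using hb⟩
      unfold paid
      rw [List.mem_filter, List.mem_dedup]
      exact ⟨(hI.2.2 e (List.mem_of_getElem? he)).2.2, hp⟩
  · left
    rw [Bool.not_eq_true] at hp
    exact (base_eq (mem_free.2 ⟨i, e, he, hi, hv, hp, rfl⟩)).symm

theorem costL_eq (hI : WellFormed I) (h : List (Quad El × ℕ)) :
    costL I k h = cost I (S I k h) := by
  unfold costL cost
  rw [List.sum_toFinset _ hI.1]
  congr 1
  apply List.map_congr_left
  intro v _
  rw [S_card]

theorem mistL_eq (h : List (Quad El × ℕ)) : mistL I k h = mistakes I (S I k h) := by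
  classical
  unfold mistL mistakes
  congr 1
  apply List.filter_congr
  intro e _
  rw [Bool.eq_iff_iff]
  simp only [Satisfied, S, List.mem_toFinset, Bool.not_eq_true', decide_eq_true_eq,
    ← Bool.not_eq_true, List.all_eq_true]

/-- the chosen hyperedges -/
def Qe (I : Inst) (k : ℕ × ℕ) (h : List (Quad El × ℕ)) : Finset ℕ :=
  (range I.edges.length).filter fun i => chosen k h (false, i, 0) = true

/-- the chosen payments -/
def Qp (I : Inst) (k : ℕ × ℕ) (h : List (Quad El × ℕ)) : Finset (ℕ × ℕ) :=
  (I.nodes.toFinset ×ˢ I.colours.toFinset).filter fun p => chosen k h (true, p.1, p.2) = true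

theorem sum_two (A : Finset ℕ) (B : Finset (ℕ × ℕ)) :
    ∑ x ∈ A.image (fun i => ((false, i, 0) : El)) ∪ B.image (fun p => ((true, p) : El)), wt k x =
      k.1 * A.card + k.2 * B.card := by
  rw [sum_union]
  · rw [sum_image (by intro a _ b _ h; simpa using h), sum_image (by intro a _ b _ h; simpa using h)]
    simp only [wt, cond_false, cond_true, sum_const, smul_eq_mul]
    ring
  · rw [disjoint_left]
    intro x hx hx'
    rw [mem_image] at hx hx'
    obtain ⟨a, _, rfl⟩ := hx
    obtain ⟨b, _, hb⟩ := hx'
    simp at hb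

theorem length_filter_le_card (L : List (List ℕ × ℕ)) (P : List ℕ × ℕ → Bool) (A : Finset ℕ)
    (h : ∀ i e, L[i]? = some e → P e = true → i ∈ A) : (L.filter P).length ≤ A.card := by
  have h1 : (L.filter P).length = (L.zipIdx.filter fun p => P p.1).length := by
    have h2 : L.filter P = (L.zipIdx.filter (P ∘ Prod.fst)).map Prod.fst := by
      rw [← List.filter_map, List.zipIdx_map_fst]
    rw [h2, List.length_map]
    rfl
  have h3 : ((L.zipIdx.filter fun p => P p.1).map Prod.snd).Nodup := by
    have h4 : (L.zipIdx.map Prod.snd).Nodup := by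
      rw [List.zipIdx_map_snd]
      exact List.nodup_range'
    exact h4.sublist (List.Sublist.map _ List.filter_sublist)
  rw [h1, ← List.length_map (f := Prod.snd), ← List.toFinset_card_of_nodup h3]
  apply card_le_card
  intro i hi
  rw [List.mem_toFinset, List.mem_map] at hi
  obtain ⟨⟨e, j⟩, h5, rfl⟩ := hi
  rw [List.mem_filter] at h5
  exact h j e (List.mk_mem_zipIdx_iff_getElem?.1 h5.1) h5.2

theorem mistakes_le (hI : WellFormed I) :
    mistakes I (S I k (run (wt k) (quads I))) ≤ (Qe I k (run (wt k) (quads I))).card := by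
  classical
  unfold mistakes
  apply length_filter_le_card
  intro i e he hP
  unfold Qe
  rw [mem_filter, mem_range]
  obtain ⟨hlt, _⟩ := List.getElem?_eq_some_iff.1 he
  refine ⟨hlt, ?_⟩
  by_contra hcon
  rw [Bool.not_eq_true] at hcon
  have := satisfied_of_not_chosen hI he hcon
  simp [this] at hP

theorem cost_le (h : List (Quad El × ℕ)) : cost I (S I k h) ≤ (Qp I k h).card := by
  have h1 : (Qp I k h).card = ∑ v ∈ I.nodes.toFinset,
      (I.colours.toFinset.filter fun c => chosen k h (true, v, c) = true).card := by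
    unfold Qp
    rw [card_filter, sum_product]
    apply sum_congr rfl
    intro v _
    rw [card_filter]
  rw [h1]
  unfold cost
  apply sum_le_sum
  intro v _
  rw [S_card]
  unfold sol
  rw [List.length_cons, Nat.add_sub_cancel]
  refine (List.length_filter_le _ _).trans ?_
  unfold paid
  rw [← List.toFinset_card_of_nodup (List.Nodup.filter _ (List.nodup_dedup _))]
  apply card_le_card
  intro c hc
  rw [List.mem_toFinset, List.mem_filter, List.mem_dedup] at hc
  rw [mem_filter, List.mem_toFinset]
  exact hc

/-- the hitting set of an assignment -/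
theorem exists_hitting (hI : WellFormed I) {S' : ℕ → Finset ℕ} (hS : IsAssignment I S') :
    ∃ P : Finset El, (∀ s ∈ quads I, ∃ x ∈ P, inQ x s = true) ∧
      ∑ x ∈ P, wt k x ≤ k.1 * mistakes I S' + k.2 * cost I S' := by
  classical
  have hne : ∀ v ∈ I.nodes, ∃ c, c ∈ S' v := fun v hv => (hS v hv).1
  choose! m hm using hne
  set A : Finset ℕ := (range I.edges.length).filter
    fun i => ∃ e, I.edges[i]? = some e ∧ ¬ Satisfied S' e with hA
  set B : Finset (ℕ × ℕ) := I.nodes.toFinset.biUnion
    fun v => ((S' v).erase (m v)).image fun c => (v, c) with hB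
  have hAc : A.card ≤ mistakes I S' := by
    have h2 : (I.edges.filter fun e => decide (¬ Satisfied S' e)) =
        (I.edges.zipIdx.filter ((fun e => decide (¬ Satisfied S' e)) ∘ Prod.fst)).map Prod.fst := by
      rw [← List.filter_map, List.zipIdx_map_fst]
    unfold mistakes
    rw [h2, List.length_map, ← List.length_map (f := Prod.snd)]
    refine le_trans (card_le_card ?_) (List.toFinset_card_le _)
    intro i hi
    rw [hA, mem_filter] at hi
    obtain ⟨_, e, he, hs⟩ := hi
    rw [List.mem_toFinset, List.mem_map]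
    refine ⟨(e, i), List.mem_filter.2 ⟨List.mk_mem_zipIdx_iff_getElem?.2 he, ?_⟩, rfl⟩
    simpa using hs
  have hBc : B.card ≤ cost I S' := by
    rw [hB]
    refine card_biUnion_le.trans ?_
    unfold cost
    apply sum_le_sum
    intro v hv
    rw [List.mem_toFinset] at hv
    refine card_image_le.trans ?_
    rw [card_erase_of_mem (hm v hv)]
  refine ⟨A.image (fun i => ((false, i, 0) : El)) ∪ B.image (fun p => ((true, p) : El)), ?_, ?_⟩
  · intro s hs
    obtain ⟨i, j, e, f, v, he, hf, hc, hv, hv', rfl⟩ := quads_spec hs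
    have hvn : v ∈ I.nodes := (hI.2.2 e (List.mem_of_getElem? he)).2.1 v hv
    by_cases h1 : Satisfied S' e
    · by_cases h2 : Satisfied S' f
      · by_cases h3 : e.2 = m v
        · refine ⟨(true, v, f.2), mem_union_right _ (mem_image.2 ⟨(v, f.2), ?_, rfl⟩), ?_⟩
          · rw [hB, mem_biUnion]
            refine ⟨v, by simpa using hvn, mem_image.2 ⟨f.2, ?_, rfl⟩⟩
            rw [mem_erase]
            exact ⟨fun h4 => hc (h3.trans h4.symm), h2 v hv'⟩
          · rw [inQ_iff]; simp
        · refine ⟨(true, v, e.2), mem_union_right _ (mem_image.2 ⟨(v, e.2), ?_, rfl⟩), ?_⟩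
          · rw [hB, mem_biUnion]
            refine ⟨v, by simpa using hvn, mem_image.2 ⟨e.2, ?_, rfl⟩⟩
            rw [mem_erase]
            exact ⟨h3, h1 v hv⟩
          · rw [inQ_iff]; simp
      · refine ⟨(false, j, 0), mem_union_left _ (mem_image.2 ⟨j, ?_, rfl⟩), ?_⟩
        · rw [hA, mem_filter, mem_range]
          exact ⟨(List.getElem?_eq_some_iff.1 hf).1, f, hf, h2⟩
        · rw [inQ_iff]; simp
    · refine ⟨(false, i, 0), mem_union_left _ (mem_image.2 ⟨i, ?_, rfl⟩), ?_⟩
      · rw [hA, mem_filter, mem_range]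
        exact ⟨(List.getElem?_eq_some_iff.1 he).1, e, he, h1⟩
      · rw [inQ_iff]; simp
  · rw [sum_two]
    gcongr

/-- the bound for the right guess -/
theorem key_bound (hI : WellFormed I) {S' : ℕ → Finset ℕ} (hS : IsAssignment I S') :
    k.1 * (Qe I k (run (wt k) (quads I))).card + k.2 * (Qp I k (run (wt k) (quads I))).card ≤
      4 * (k.1 * mistakes I S' + k.2 * cost I S') := by
  obtain ⟨P, hP, hPw⟩ := exists_hitting (k := k) hI hS
  rw [← sum_two]
  refine (local_ratio (wt k) (quads I) P _ hP ?_).trans (Nat.mul_le_mul_left 4 hPw)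
  intro x hx
  rw [mem_union, mem_image, mem_image] at hx
  rcases hx with ⟨i, hi, rfl⟩ | ⟨p, hp, rfl⟩
  · unfold Qe at hi
    rw [mem_filter] at hi
    simpa [chosen] using hi.2
  · unfold Qp at hp
    rw [mem_filter] at hp
    simpa [chosen] using hp.2

theorem arith {p q b D N del pd : ℕ} (hp : 1 ≤ p) (hq : 1 ≤ q) (hN : 4 * (D + b) < N)
    (h : (p * b * N + 1) * del + (q * D * N + 1) * pd ≤
      4 * ((p * b * N + 1) * D + (q * D * N + 1) * b)) :
    p * del ≤ 4 * (p + q) * D ∧ q * pd ≤ 4 * (p + q) * b := by
  have e : 4 * ((p * b * N + 1) * D + (q * D * N + 1) * b) =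
      b * D * N * (4 * (p + q)) + 4 * (D + b) := by ring
  rw [e] at h
  constructor
  · rcases Nat.eq_zero_or_pos b with rfl | hb
    · simp only [mul_zero, zero_mul, zero_add, one_mul, add_zero] at h
      have h1 : del ≤ 4 * D := by omega
      calc p * del ≤ p * (4 * D) := Nat.mul_le_mul_left _ h1
        _ ≤ (p + q) * (4 * D) := Nat.mul_le_mul_right _ (by omega)
        _ = 4 * (p + q) * D := by ring
    · by_contra hcon
      push Not at hcon
      have h1 : b * N * (4 * (p + q) * D + 1) ≤ b * N * (p * del) := Nat.mul_le_mul_left _ hcon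
      have h2 : N ≤ b * N := Nat.le_mul_of_pos_left _ hb
      have e1 : b * N * (4 * (p + q) * D + 1) = b * D * N * (4 * (p + q)) + b * N := by ring
      have e2 : (p * b * N + 1) * del = b * N * (p * del) + del := by ring
      rw [e1] at h1
      rw [e2] at h
      omega
  · rcases Nat.eq_zero_or_pos D with rfl | hD
    · simp only [mul_zero, zero_mul, zero_add, one_mul] at h
      have h1 : pd ≤ 4 * b := by omega
      calc q * pd ≤ q * (4 * b) := Nat.mul_le_mul_left _ h1
        _ ≤ (p + q) * (4 * b) := Nat.mul_le_mul_right _ (by omega)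
        _ = 4 * (p + q) * b := by ring
    · by_contra hcon
      push Not at hcon
      have h1 : D * N * (4 * (p + q) * b + 1) ≤ D * N * (q * pd) := Nat.mul_le_mul_left _ hcon
      have h2 : N ≤ D * N := Nat.le_mul_of_pos_left _ hD
      have e1 : D * N * (4 * (p + q) * b + 1) = b * D * N * (4 * (p + q)) + D * N := by ring
      have e2 : (q * D * N + 1) * pd = D * N * (q * pd) + pd := by ring
      rw [e1] at h1
      rw [e2] at h
      omega

theorem mistakes_le_length (S' : ℕ → Finset ℕ) : mistakes I S' ≤ I.edges.length := by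
  classical
  unfold mistakes
  exact List.length_filter_le _ _

theorem good_opt {p q : ℕ} (hp : 1 ≤ p) (hq : 1 ≤ q) (hI : WellFormed I) {S' : ℕ → Finset ℕ}
    (hS : IsAssignment I S') (hb : cost I S' ≤ I.budget) : good p q I (mistakes I S') = true := by
  set D := mistakes I S' with hD
  set k := wts p q I D with hk
  have h1 := key_bound (k := k) hI hS
  have h2 : 4 * (k.1 * mistakes I S' + k.2 * cost I S') ≤
      4 * ((p * I.budget * scale I + 1) * D + (q * D * scale I + 1) * I.budget) := by
    have e1 : k.1 = p * I.budget * scale I + 1 := rfl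
    have e2 : k.2 = q * D * scale I + 1 := rfl
    rw [e1, e2]
    gcongr
  have h3 := mistakes_le_length (I := I) S'
  have h4 := arith (p := p) (q := q) (b := I.budget) (D := D) (N := scale I) hp hq
    (by unfold scale; omega) (h1.trans h2)
  have h5 := mistakes_le (k := k) hI
  have h6 := cost_le (I := I) (k := k) (run (wt k) (quads I))
  unfold good hist
  rw [Bool.and_eq_true, decide_eq_true_eq, decide_eq_true_eq, costL_eq hI, mistL_eq]
  exact ⟨(Nat.mul_le_mul_left q h6).trans h4.2, (Nat.mul_le_mul_left p h5).trans h4.1⟩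

/-- **Correctness of the algorithm.** -/
theorem alg_correct {p q : ℕ} (hp : 1 ≤ p) (hq : 1 ≤ q) (hI : WellFormed I)
    {S' : ℕ → Finset ℕ} (hS : IsAssignment I S') (hb : cost I S' ≤ I.budget) :
    q * cost I (S I (wts p q I (guess p q I)) (hist p q I (guess p q I))) ≤
        4 * (p + q) * I.budget ∧
      p * mistakes I (S I (wts p q I (guess p q I)) (hist p q I (guess p q I))) ≤
        4 * (p + q) * mistakes I S' := by
  have h1 := good_opt hp hq hI hS hb
  have h2 := mistakes_le_length (I := I) S'
  set L := (List.range (I.edges.length + 1)).filter fun D => good p q I D with hL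
  have hmem : mistakes I S' ∈ L := by
    rw [hL, List.mem_filter, List.mem_range]
    exact ⟨by omega, h1⟩
  have hsort : L.Pairwise (· < ·) := List.Pairwise.filter _ List.pairwise_lt_range
  have hg : guess p q I = (L.head?).getD 0 := rfl
  cases hLc : L with
  | nil => rw [hLc] at hmem; simp at hmem
  | cons a t =>
    have hga : guess p q I = a := by rw [hg, hLc]; rfl
    have haL : a ∈ L := by rw [hLc]; simp
    rw [hL, List.mem_filter] at haL
    have hle : a ≤ mistakes I S' := by
      rw [hLc, List.mem_cons] at hmem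
      rcases hmem with h | h
      · omega
      · rw [hLc, List.pairwise_cons] at hsort
        exact (hsort.1 _ h).le
    have hgood := haL.2
    unfold good at hgood
    rw [Bool.and_eq_true, decide_eq_true_eq, decide_eq_true_eq, costL_eq hI, mistL_eq] at hgood
    rw [hga]
    exact ⟨hgood.1, hgood.2.trans (Nat.mul_le_mul_left _ hle)⟩

/-- without any hypothesis the budget bound holds as soon as some guess is good, which is always
the case for well-formed instances -/
theorem exists_feasible (hI : WellFormed I) :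
    ∃ S' : ℕ → Finset ℕ, IsAssignment I S' ∧ cost I S' ≤ I.budget := by
  refine ⟨fun _ => {I.colours.getD 0 0}, ?_, ?_⟩
  · intro v _
    refine ⟨⟨_, mem_singleton_self _⟩, fun c hc => ?_⟩
    rw [mem_singleton] at hc
    subst hc
    cases hc : I.colours with
    | nil => exact absurd hc hI.2.1
    | cons a t => simp
  · simp [cost]

end correct

/-! ### Polynomial time -/

section poly

variable {α : Type} [TEnc α]

theorem poly_nodes {I : α → Inst} (hI : Poly I) : Poly (fun a => (I a).nodes) := by
  unfold Inst.nodes; fun_prop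

theorem poly_colours {I : α → Inst} (hI : Poly I) : Poly (fun a => (I a).colours) := by
  unfold Inst.colours; fun_prop

theorem poly_edges {I : α → Inst} (hI : Poly I) : Poly (fun a => (I a).edges) := by
  unfold Inst.edges; fun_prop

theorem poly_budget {I : α → Inst} (hI : Poly I) : Poly (fun a => (I a).budget) := by
  unfold Inst.budget; fun_prop

attribute [fun_prop] poly_nodes poly_colours poly_edges poly_budget

theorem poly_wt {k : α → ℕ × ℕ} {x : α → El} (hk : Poly k) (hx : Poly x) :
    Poly (fun a => wt (k a) (x a)) := by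
  unfold wt
  fun_prop

attribute [fun_prop] poly_wt

theorem poly_quads {I : α → Inst} (hI : Poly I) : Poly (fun a => quads (I a)) := by
  unfold quads
  fun_prop

attribute [fun_prop] poly_quads

theorem poly_dedup {β : Type} [TEnc β] [DecidableEq β] {l : α → List β} (hl : Poly l) :
    Poly (fun a => (l a).dedup) := by
  obtain ⟨r, hr⟩ := hl.sz_le
  refine (NPC.Poly.foldr (l := l) (s := fun _ => ([] : List β))
    (F := fun _ b s => if b ∈ s then s else b :: s) hl (NPC.Poly.const _) ?_ r ?_).congr fun a => ?_
  · exact NPC.Poly.ite (NPC.Poly.dec_mem (NPC.Poly.fst (NPC.Poly.snd NPC.Poly.id))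
      (NPC.Poly.snd (NPC.Poly.snd NPC.Poly.id))) (NPC.Poly.snd (NPC.Poly.snd NPC.Poly.id))
      (NPC.Poly.cons (NPC.Poly.fst (NPC.Poly.snd NPC.Poly.id))
        (NPC.Poly.snd (NPC.Poly.snd NPC.Poly.id)))
  · intro a k _
    have key : ∀ l : List β, sz (l.foldr (fun b s => if b ∈ s then s else b :: s) []) ≤ sz l := by
      intro l
      induction l with
      | nil => simp
      | cons b l ih =>
        rw [List.foldr_cons, sz_list_cons]
        split_ifs
        · omega
        · rw [sz_list_cons]
          omega
    exact (key _).trans ((NPC.Poly.sz_drop_le _ _).trans (hr a))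
  · induction l a with
    | nil => rfl
    | cons b t ih =>
      rw [List.foldr_cons, ih]
      by_cases h : b ∈ t
      · rw [List.dedup_cons_of_mem h, if_pos (List.mem_dedup.2 h)]
      · rw [List.dedup_cons_of_notMem h, if_neg (fun h' => h (List.mem_dedup.1 h'))]

attribute [fun_prop] poly_dedup

theorem poly_chosen {k : α → ℕ × ℕ} {h : α → List (Quad El × ℕ)} {x : α → El} (hk : Poly k)
    (hh : Poly h) (hx : Poly x) : Poly (fun a => chosen (k a) (h a) (x a)) := by
  unfold chosen
  fun_prop

attribute [fun_prop] poly_chosen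

theorem poly_sol {I : α → Inst} {k : α → ℕ × ℕ} {h : α → List (Quad El × ℕ)} {v : α → ℕ}
    (hI : Poly I) (hk : Poly k) (hh : Poly h) (hv : Poly v) :
    Poly (fun a => sol (I a) (k a) (h a) (v a)) := by
  unfold sol base paid free
  fun_prop

attribute [fun_prop] poly_sol

theorem poly_scale {I : α → Inst} (hI : Poly I) : Poly (fun a => scale (I a)) := by
  unfold scale
  fun_prop

attribute [fun_prop] poly_scale

theorem poly_wts (p q : ℕ) {I : α → Inst} {D : α → ℕ} (hI : Poly I) (hD : Poly D) :
    Poly (fun a => wts p q (I a) (D a)) := by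
  unfold wts
  fun_prop

attribute [fun_prop] poly_wts

theorem poly_hist (p q : ℕ) {I : α → Inst} {D : α → ℕ} (hI : Poly I) (hD : Poly D) :
    Poly (fun a => hist p q (I a) (D a)) := by
  unfold hist
  refine poly_run (w := fun a => wt (wts p q (I a) (D a)))
    (W := fun a => (wts p q (I a) (D a)).1 + (wts p q (I a) (D a)).2) (by fun_prop) (by fun_prop)
    (by fun_prop) ?_
  intro a x
  unfold wt
  cases x.1 <;> simp

attribute [fun_prop] poly_hist

theorem poly_good (p q : ℕ) {I : α → Inst} {D : α → ℕ} (hI : Poly I) (hD : Poly D) :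
    Poly (fun a => good p q (I a) (D a)) := by
  unfold good costL mistL
  fun_prop

attribute [fun_prop] poly_good

theorem poly_guess (p q : ℕ) {I : α → Inst} (hI : Poly I) :
    Poly (fun a => guess p q (I a)) := by
  unfold guess
  have h1 : Poly (fun a => List.range ((I a).edges.length + 1)) :=
    (UPoly.add (UPoly.length (poly_edges hI)) (UPoly.const 1)).range
  have h2 : Poly (fun a => (List.range ((I a).edges.length + 1)).filter
      fun D => good p q (I a) D) := NPC.Poly.filter (p := fun a D => good p q (I a) D) h1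
    (by fun_prop)
  fun_prop

attribute [fun_prop] poly_guess

theorem poly_alg (p q : ℕ) {I : α → Inst} (hI : Poly I) : Poly (fun a => alg p q (I a)) := by
  unfold alg
  fun_prop

end poly

end Pool.Agent.W5h82.ECC
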