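import Pool.Agent.H671R2.PolyAuto
import Pool.Agent.NPC.Dec

/-!
# The local ratio method for weighted hitting sets of four-element sets
-/

set_option autoImplicit false

namespace Pool.Agent.W5h82.ECC

open Pool.Agent.NPC Finset

/-- four elements -/
abbrev Quad (X : Type) : Type := (X × X) × (X × X)

section LR

variable {X : Type} [DecidableEq X]

/-- is `x` one of the four elements? -/
def inQ (x : X) (s : Quad X) : Bool :=
  decide (x = s.1.1) || decide (x = s.1.2) || decide (x = s.2.1) || decide (x = s.2.2)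

theorem inQ_iff (x : X) (s : Quad X) :
    inQ x s = true ↔ x = s.1.1 ∨ x = s.1.2 ∨ x = s.2.1 ∨ x = s.2.2 := by
  simp [inQ, or_assoc]

/-- the amount by which the weight of `x` has been decreased -/
def load (h : List (Quad X × ℕ)) (x : X) : ℕ :=
  (h.map fun t => bif inQ x t.1 then t.2 else 0).sum

/-- the smallest residual weight of the four elements -/
def amount (w : X → ℕ) (h : List (Quad X × ℕ)) (s : Quad X) : ℕ :=
  min (min (w s.1.1 - load h s.1.1) (w s.1.2 - load h s.1.2))
    (min (w s.2.1 - load h s.2.1) (w s.2.2 - load h s.2.2))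

/-- one step -/
def step (w : X → ℕ) (h : List (Quad X × ℕ)) (s : Quad X) : List (Quad X × ℕ) :=
  (s, amount w h s) :: h

/-- the whole run -/
def run (w : X → ℕ) (l : List (Quad X)) : List (Quad X × ℕ) := l.foldl (step w) []

/-- the sum of all decrements -/
def total (h : List (Quad X × ℕ)) : ℕ := (h.map Prod.snd).sum

theorem load_cons (t : Quad X × ℕ) (h : List (Quad X × ℕ)) (x : X) :
    load (t :: h) x = (if inQ x t.1 = true then t.2 else 0) + load h x := by
  unfold load
  rw [List.map_cons, List.sum_cons]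
  cases inQ x t.1 <;> simp

omit [DecidableEq X] in
theorem total_cons (t : Quad X × ℕ) (h : List (Quad X × ℕ)) :
    total (t :: h) = t.2 + total h := by simp [total]

theorem amount_le (w : X → ℕ) (h : List (Quad X × ℕ)) (s : Quad X) (x : X)
    (hx : inQ x s = true) : amount w h s ≤ w x - load h x := by
  unfold amount
  rcases (inQ_iff x s).1 hx with rfl | rfl | rfl | rfl
  · exact (min_le_left _ _).trans (min_le_left _ _)
  · exact (min_le_left _ _).trans (min_le_right _ _)
  · exact (min_le_right _ _).trans (min_le_left _ _)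
  · exact (min_le_right _ _).trans (min_le_right _ _)

theorem amount_eq (w : X → ℕ) (h : List (Quad X × ℕ)) (s : Quad X) :
    ∃ x, inQ x s = true ∧ amount w h s = w x - load h x := by
  have m : ∀ a b : ℕ, min a b = a ∨ min a b = b := fun a b => by
    rcases le_total a b with hab | hab
    · exact Or.inl (min_eq_left hab)
    · exact Or.inr (min_eq_right hab)
  unfold amount
  rcases m (min (w s.1.1 - load h s.1.1) (w s.1.2 - load h s.1.2))
    (min (w s.2.1 - load h s.2.1) (w s.2.2 - load h s.2.2)) with h1 | h1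
  · rcases m (w s.1.1 - load h s.1.1) (w s.1.2 - load h s.1.2) with h2 | h2
    · exact ⟨s.1.1, (inQ_iff _ _).2 (Or.inl rfl), h1.trans h2⟩
    · exact ⟨s.1.2, (inQ_iff _ _).2 (Or.inr (Or.inl rfl)), h1.trans h2⟩
  · rcases m (w s.2.1 - load h s.2.1) (w s.2.2 - load h s.2.2) with h2 | h2
    · exact ⟨s.2.1, (inQ_iff _ _).2 (Or.inr (Or.inr (Or.inl rfl))), h1.trans h2⟩
    · exact ⟨s.2.2, (inQ_iff _ _).2 (Or.inr (Or.inr (Or.inr rfl))), h1.trans h2⟩

/-- induction principle for runs -/
theorem run_induction {w : X → ℕ} {P : List (Quad X) → List (Quad X × ℕ) → Prop}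
    (h0 : P [] []) (hs : ∀ l h s, P l h → P (l ++ [s]) (step w h s)) (l : List (Quad X)) :
    P l (run w l) := by
  induction l using List.reverseRecOn with
  | nil => exact h0
  | append_singleton l s ih =>
    unfold run
    rw [List.foldl_append]
    exact hs l _ s ih

theorem load_le (w : X → ℕ) (l : List (Quad X)) : ∀ x, load (run w l) x ≤ w x := by
  refine run_induction (P := fun _ h => ∀ x, load h x ≤ w x) ?_ ?_ l
  · intro x
    simp [load]
  · intro l h s ih x
    have h1 := ih x
    rw [step, load_cons]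
    split_ifs with h2
    · have := amount_le w h s x h2
      simp only
      omega
    · omega

theorem run_hit (w : X → ℕ) (l : List (Quad X)) :
    ∀ s ∈ l, ∃ x, inQ x s = true ∧ w x ≤ load (run w l) x := by
  refine run_induction (P := fun l h => ∀ s ∈ l, ∃ x, inQ x s = true ∧ w x ≤ load h x) ?_ ?_ l
  · simp
  · intro l h s ih t ht
    rw [List.mem_append, List.mem_singleton] at ht
    rcases ht with ht | rfl
    · obtain ⟨x, h1, h2⟩ := ih t ht
      refine ⟨x, h1, h2.trans ?_⟩
      rw [step, load_cons]
      omega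
    · obtain ⟨x, h1, h2⟩ := amount_eq w h t
      refine ⟨x, h1, ?_⟩
      rw [step, load_cons, if_pos h1]
      simp only
      omega

theorem card_inQ_le (Q : Finset X) (s : Quad X) : (Q.filter fun x => inQ x s = true).card ≤ 4 := by
  have h : (Q.filter fun x => inQ x s = true) ⊆ {s.1.1, s.1.2, s.2.1, s.2.2} := by
    intro x hx
    rw [mem_filter] at hx
    rcases (inQ_iff x s).1 hx.2 with rfl | rfl | rfl | rfl <;> simp
  exact (card_le_card h).trans (card_le_four)

theorem sum_load_le (Q : Finset X) (h : List (Quad X × ℕ)) :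
    ∑ x ∈ Q, load h x ≤ 4 * total h := by
  induction h with
  | nil => simp [load]
  | cons t h ih =>
    have e : ∑ x ∈ Q, load (t :: h) x =
        (Q.filter fun x => inQ x t.1 = true).card * t.2 + ∑ x ∈ Q, load h x := by
      simp_rw [load_cons]
      rw [sum_add_distrib, ← sum_filter, sum_const, smul_eq_mul]
    have h4 := Nat.mul_le_mul_right t.2 (card_inQ_le Q t.1)
    rw [e, total_cons]
    omega

theorem total_le_sum (P : Finset X) (h : List (Quad X × ℕ))
    (hP : ∀ t ∈ h, ∃ x ∈ P, inQ x t.1 = true) : total h ≤ ∑ x ∈ P, load h x := by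
  induction h with
  | nil => simp [total]
  | cons t h ih =>
    have e : ∑ x ∈ P, load (t :: h) x =
        (P.filter fun x => inQ x t.1 = true).card * t.2 + ∑ x ∈ P, load h x := by
      simp_rw [load_cons]
      rw [sum_add_distrib, ← sum_filter, sum_const, smul_eq_mul]
    obtain ⟨x, hx, hxt⟩ := hP t (by simp)
    have h1 : 1 ≤ (P.filter fun x => inQ x t.1 = true).card :=
      card_pos.2 ⟨x, mem_filter.2 ⟨hx, hxt⟩⟩
    have h4 := Nat.mul_le_mul_right t.2 h1
    have h5 := ih fun t' ht' => hP t' (List.mem_cons_of_mem _ ht')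
    rw [e, total_cons]
    omega

theorem mem_run_fst (w : X → ℕ) (l : List (Quad X)) : ∀ t ∈ run w l, t.1 ∈ l := by
  refine run_induction (P := fun l h => ∀ t ∈ h, t.1 ∈ l) ?_ ?_ l
  · simp
  · intro l h s ih t ht
    rw [step, List.mem_cons] at ht
    rcases ht with rfl | ht
    · simp
    · exact List.mem_append_left _ (ih t ht)

/-- **The local ratio bound.** The chosen elements cost at most four times as much as an arbitrary
hitting set. -/
theorem local_ratio (w : X → ℕ) (l : List (Quad X)) (P Q : Finset X)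
    (hP : ∀ s ∈ l, ∃ x ∈ P, inQ x s = true) (hQ : ∀ x ∈ Q, w x ≤ load (run w l) x) :
    ∑ x ∈ Q, w x ≤ 4 * ∑ x ∈ P, w x := by
  have h1 : ∑ x ∈ Q, w x ≤ ∑ x ∈ Q, load (run w l) x := sum_le_sum hQ
  have h2 := sum_load_le Q (run w l)
  have h3 := total_le_sum P (run w l) fun t ht => hP _ (mem_run_fst w l t ht)
  have h4 : ∑ x ∈ P, load (run w l) x ≤ ∑ x ∈ P, w x := sum_le_sum fun x _ => load_le w l x
  omega

end LR

/-! ### Polynomial time -/

section poly

variable {α X : Type} [TEnc α] [TEnc X] [DecidableEq X]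

theorem poly_inQ {x : α → X} {s : α → Quad X} (hx : Poly x) (hs : Poly s) :
    Poly (fun a => inQ (x a) (s a)) := by
  unfold inQ
  fun_prop

attribute [fun_prop] poly_inQ

theorem poly_load {h : α → List (Quad X × ℕ)} {x : α → X} (hh : Poly h) (hx : Poly x) :
    Poly (fun a => load (h a) (x a)) := by
  unfold load
  fun_prop

attribute [fun_prop] poly_load

theorem poly_amount {w : α → X → ℕ} {h : α → List (Quad X × ℕ)} {s : α → Quad X}
    (hw : Poly (fun p : α × X => w p.1 p.2)) (hh : Poly h) (hs : Poly s) :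
    Poly (fun a => amount (w a) (h a) (s a)) := by
  have hw' : ∀ {x : α → X}, Poly x → Poly (fun a => w a (x a)) := fun {x} hx =>
    (hw.comp (Poly.pair Poly.id hx)).congr fun a => rfl
  unfold amount
  have h1 := hw' (x := fun a => (s a).1.1) (by fun_prop)
  have h2 := hw' (x := fun a => (s a).1.2) (by fun_prop)
  have h3 := hw' (x := fun a => (s a).2.1) (by fun_prop)
  have h4 := hw' (x := fun a => (s a).2.2) (by fun_prop)
  fun_prop

theorem amount_le_bound {X : Type} [DecidableEq X] {w : X → ℕ} {W : ℕ} (hW : ∀ x, w x ≤ W)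
    (h : List (Quad X × ℕ)) (s : Quad X) : amount w h s ≤ W := by
  obtain ⟨x, _, hx⟩ := amount_eq w h s
  rw [hx]
  exact (Nat.sub_le _ _).trans (hW x)

theorem sz_run_le {w : X → ℕ} {W : ℕ} (hW : ∀ x, w x ≤ W) (l : List (Quad X)) :
    sz (run w l) ≤ sz l + l.length * (2 * sz W + 1) := by
  refine run_induction (P := fun l h => sz h ≤ sz l + l.length * (2 * sz W + 1)) ?_ ?_ l
  · simp
  · intro l h s ih
    have h1 := sz_append l [s]
    have h2 : sz (amount w h s) ≤ 2 * sz W := sz_nat_mono_le (amount_le_bound hW h s)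
    rw [step, sz_list_cons, sz_pair, List.length_append, List.length_singleton, add_mul]
    simp only [sz_list_cons, sz_list_nil, one_mul] at h1 ⊢
    omega

theorem poly_run {w : α → X → ℕ} {W : α → ℕ} {l : α → List (Quad X)}
    (hw : Poly (fun p : α × X => w p.1 p.2)) (hl : Poly l) (hWp : Poly W)
    (hW : ∀ a x, w a x ≤ W a) : Poly (fun a => run (w a) (l a)) := by
  obtain ⟨r, hr⟩ := hl.sz_le
  obtain ⟨r', hr'⟩ := hWp.sz_le
  unfold run
  refine Poly.foldl (F := fun a h s => step (w a) h s)
    (s := fun _ => ([] : List (Quad X × ℕ))) hl (NPC.Poly.const _) ?_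
    (r + r * (Polynomial.C 2 * r' + Polynomial.C 1)) ?_
  · unfold step
    have h1 : Poly (fun p : α × List (Quad X × ℕ) × Quad X => amount (w p.1) p.2.1 p.2.2) := by
      refine poly_amount (w := fun p : α × List (Quad X × ℕ) × Quad X => w p.1) ?_ (by fun_prop)
        (by fun_prop)
      exact (hw.comp (Poly.pair (Poly.fst (Poly.fst Poly.id)) (Poly.snd Poly.id))).congr
        fun a => rfl
    fun_prop
  · intro a k _
    have h1 := sz_run_le (hW a) ((l a).take k)
    have h2 := NPC.Poly.sz_take_le (l a) k
    have h3 := hr a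
    have h4 := hr' a
    have h5 : ((l a).take k).length ≤ r.eval (sz a) :=
      (length_lt_sz _).le.trans (h2.trans h3)
    simp only [Polynomial.eval_add, Polynomial.eval_mul, Polynomial.eval_C]
    refine h1.trans ?_
    gcongr
    · exact h2.trans h3

end poly

end Pool.Agent.W5h82.ECC
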